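import Pool.Agent.helper41.CL.SpecC

/-!
# MP_d9d598_co, project CL, row SI: the case `n = 2 k`
-/

set_option autoImplicit false

namespace Pool.Agent.helper41.CL

open Finset

theorem SI_gr {n : ℕ} (G : SimpleGraph (Fin n)) : Gr univ (NE G) := by
  classical
  intro e he
  unfold NE at he
  rw [mem_filter, mem_powersetCard] at he
  exact ⟨subset_univ _, he.1.2⟩

theorem SI_mem (h2 : XS_stmt) (h3 : XG_stmt) (h4 : WE_stmt) (h5 : WA_stmt) (h6 : WC_stmt)
    (h7 : WF_stmt) (m : ℕ) : 4 * 2 ^ m ∈ counts (2 * m + 6) (m + 3) := by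
  obtain ⟨hGr, hE, -, hc, hx⟩ := h2 m
  obtain ⟨G, hG1, hG2, hG3⟩ := h3 (2 * m + 6) (ES m) hGr
  classical
  have e1 : 2 * m + 6 - (m + 3) = m + 3 := by omega
  refine ⟨G, inferInstance, ?_, ?_, ?_⟩
  · have ha := h5 (2 * m + 6) G
    have hf := h7 (m + 2) (by omega)
    have e2 : 2 * (m + 2) + 2 = 2 * m + 6 := by ring
    have e3 : m + 3 - 1 = m + 2 := by omega
    rw [e2] at hf
    rw [e3]
    omega
  · refine h4 (2 * m + 6) (m + 3) G (by omega) ?_
    rw [e1]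
    exact hG3 (m + 3) hx
  · rw [← (h6 (2 * m + 6) (m + 3) G (by omega)).1, e1, hG2, hc]

theorem SI (h1 : ED_stmt) (h2 : XS_stmt) (h3 : XG_stmt) (h4 : WE_stmt) (h5 : WA_stmt) (h6 : WC_stmt)
    (h7 : WF_stmt) (h8 : WG_stmt) : SI_stmt := by
  intro k hk
  refine ⟨h8 k hk, ?_, ?_⟩
  · obtain ⟨m, rfl⟩ : ∃ m, k = m + 3 := ⟨k - 3, by omega⟩
    have h := SI_mem h2 h3 h4 h5 h6 h7 m
    have e1 : 2 * (m + 3) = 2 * m + 6 := by ring
    have e2 : 2 ^ (m + 3 - 1) = 4 * 2 ^ m := by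
      have : m + 3 - 1 = m + 2 := by omega
      rw [this]
      ring
    rw [e1, e2]
    exact h
  · rintro N ⟨G, hdec, hE, hc, rfl⟩
    have hg := SI_gr G
    have ha := h5 (2 * k) G
    have hf := h7 (k - 1) (by omega)
    have e1 : 2 * (k - 1) + 2 = 2 * k := by omega
    rw [e1] at hf
    have hN : #(NE G) = k + 2 := by omega
    obtain ⟨hc1, hc2⟩ := h6 (2 * k) k G (by omega)
    have hc3 := hc2 hc
    have e2 : #(NE G) - 2 = 2 * k - k := by omega
    have hcu : #(univ : Finset (Fin (2 * k))) = 2 * k := by simp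
    have hED := h1 (Fin (2 * k)) univ (NE G) hg (by omega) (by rw [hcu]; omega) (by rw [e2]; exact hc3)
    rw [e2, hc1, hN] at hED
    obtain ⟨m, rfl⟩ : ∃ m, k = m + 1 := ⟨k - 1, by omega⟩
    have e3 : 2 ^ (m + 1 + 2) = 8 * 2 ^ m := by ring
    have e4 : m + 1 - 1 = m := by omega
    rw [e3] at hED
    rw [e4]
    omega

end Pool.Agent.helper41.CL
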