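import Pool.Agent.helper47.CL.SpecD

/-! MP_d9d598_co, row ZK. -/

set_option autoImplicit false

namespace Pool.Agent.helper41.CL

open Finset

variable {α : Type} [DecidableEq α]

theorem ZK_ind (V : Finset α) (E : Finset (Finset α)) (k : ℕ) (I : Finset α) :
    I ∈ ind V E k ↔ (I ⊆ V ∧ #I = k) ∧ ∀ e ∈ E, ¬ e ⊆ I := by
  unfold ind
  rw [@mem_filter _ _ (_) _ _, mem_powersetCard]

theorem ZK_av (E : Finset (Finset α)) (S : Finset α) (e : Finset α) :
    e ∈ av E S ↔ e ∈ E ∧ Disjoint e S := by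
  unfold av
  rw [@mem_filter _ _ (_) _ _]

theorem ZK_symm {E : Finset (Finset α)} {x y : α} (h : Kt E x y) : Kt E y x := by
  refine ⟨h.1.symm, ?_, ?_⟩
  · rw [pair_comm]; exact h.2.1
  · intro e he hor
    rw [pair_comm]
    exact h.2.2 e he hor.symm

theorem ZK_dis {E : Finset (Finset α)} {x y : α} (h : Kt E x y) {e : Finset α} (he : e ∈ E) (hne : e ≠ {x, y}) :
    x ∉ e ∧ y ∉ e := by
  constructor
  · intro hx; exact hne (h.2.2 e he (Or.inl hx))
  · intro hy; exact hne (h.2.2 e he (Or.inr hy))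

theorem ZK_erase {E : Finset (Finset α)} {x y : α} (h : Kt E x y) : av E {x, y} = E.erase {x, y} := by
  ext e
  rw [ZK_av, mem_erase]
  constructor
  · rintro ⟨he, hd⟩
    refine ⟨?_, he⟩
    rintro rfl
    exact (disjoint_left.1 hd (mem_insert_self x {y})) (mem_insert_self x {y})
  · rintro ⟨hne, he⟩
    refine ⟨he, ?_⟩
    obtain ⟨h1, h2⟩ := ZK_dis h he hne
    rw [disjoint_right]
    intro a ha
    rw [mem_insert, mem_singleton] at ha
    rcases ha with rfl | rfl
    · exact h1
    · exact h2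

theorem ZK_out {V : Finset α} {x y : α} {J : Finset α} (hJ : J ⊆ V \ {x, y}) : x ∉ J ∧ y ∉ J := by
  constructor
  · intro h
    have := (mem_sdiff.1 (hJ h)).2
    exact this (mem_insert_self x {y})
  · intro h
    have := (mem_sdiff.1 (hJ h)).2
    exact this (mem_insert_of_mem (mem_singleton_self y))

theorem ZK_one {V : Finset α} {E : Finset (Finset α)} {x y : α} (hG : Gr V E) (h : Kt E x y) {k : ℕ} {J : Finset α}
    (hJ : J ∈ ind (V \ {x, y}) (av E {x, y}) k) : insert x J ∈ ind V E (k + 1) := by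
  rw [ZK_ind] at hJ ⊢
  obtain ⟨⟨hs, hc⟩, hi⟩ := hJ
  obtain ⟨hx, hy⟩ := ZK_out hs
  refine ⟨⟨?_, ?_⟩, ?_⟩
  · rw [insert_subset_iff]
    exact ⟨(hG _ h.2.1).1 (mem_insert_self x {y}), hs.trans sdiff_subset⟩
  · rw [card_insert_of_notMem hx, hc]
  · intro e he hsub
    by_cases hne : e = {x, y}
    · have : y ∈ insert x J := hsub (by rw [hne]; exact mem_insert_of_mem (mem_singleton_self y))
      rcases mem_insert.1 this with h1 | h1
      · exact h.1 h1.symm
      · exact hy h1
    · obtain ⟨h1, _⟩ := ZK_dis h he hne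
      have h3 : e ∈ av E {x, y} := by rw [ZK_erase h]; exact mem_erase.2 ⟨hne, he⟩
      exact hi e h3 ((subset_insert_iff_of_notMem h1).1 hsub)

theorem ZK_two {V : Finset α} {E : Finset (Finset α)} {x y : α} (h : Kt E x y) {k : ℕ} {J : Finset α}
    (hJ : J ∈ ind (V \ {x, y}) (av E {x, y}) k) : J ∈ ind V E k := by
  rw [ZK_ind] at hJ ⊢
  obtain ⟨⟨hs, hc⟩, hi⟩ := hJ
  obtain ⟨hx, hy⟩ := ZK_out hs
  refine ⟨⟨hs.trans sdiff_subset, hc⟩, ?_⟩
  intro e he hsub
  by_cases hne : e = {x, y}
  · exact hx (hsub (by rw [hne]; exact mem_insert_self x {y}))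
  · have h3 : e ∈ av E {x, y} := by rw [ZK_erase h]; exact mem_erase.2 ⟨hne, he⟩
    exact hi e h3 hsub

theorem ZK : ZK_stmt := by
  intro α _ V E x y hG h
  have hxyV : ({x, y} : Finset α) ⊆ V := (hG _ h.2.1).1
  refine ⟨?_, ?_, ?_, ?_⟩
  · intro e he
    rw [ZK_av] at he
    exact ⟨subset_sdiff.2 ⟨(hG e he.1).1, he.2⟩, (hG e he.1).2⟩
  · have h1 := card_sdiff_add_card_eq_card hxyV
    rw [card_pair h.1] at h1
    exact h1
  · rw [ZK_erase h]
    exact card_erase_add_one h.2.1
  · intro k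
    have hin : ∀ J ∈ ind (V \ {x, y}) (av E {x, y}) k, x ∉ J ∧ y ∉ J := by
      intro J hJ
      rw [ZK_ind] at hJ
      exact ZK_out hJ.1.1
    have hin1 : ∀ J ∈ ind (V \ {x, y}) (av E {x, y}) (k + 1), x ∉ J ∧ y ∉ J := by
      intro J hJ
      rw [ZK_ind] at hJ
      exact ZK_out hJ.1.1
    have hA : #((ind (V \ {x, y}) (av E {x, y}) k).image (insert x)) = #(ind (V \ {x, y}) (av E {x, y}) k) := by
      apply card_image_of_injOn
      intro J hJ K hK hJK
      have h1 := (hin J (mem_coe.1 hJ)).1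
      have h2 := (hin K (mem_coe.1 hK)).1
      have h3 : (insert x J).erase x = (insert x K).erase x := congrArg (fun s => s.erase x) hJK
      rwa [erase_insert h1, erase_insert h2] at h3
    have hB : #((ind (V \ {x, y}) (av E {x, y}) k).image (insert y)) = #(ind (V \ {x, y}) (av E {x, y}) k) := by
      apply card_image_of_injOn
      intro J hJ K hK hJK
      have h1 := (hin J (mem_coe.1 hJ)).2
      have h2 := (hin K (mem_coe.1 hK)).2
      have h3 : (insert y J).erase y = (insert y K).erase y := congrArg (fun s => s.erase y) hJK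
      rwa [erase_insert h1, erase_insert h2] at h3
    have hd1 : Disjoint ((ind (V \ {x, y}) (av E {x, y}) k).image (insert x))
        ((ind (V \ {x, y}) (av E {x, y}) k).image (insert y)) := by
      rw [disjoint_left]
      intro I hI hI'
      obtain ⟨J, hJ, rfl⟩ := mem_image.1 hI
      obtain ⟨K, hK, hKJ⟩ := mem_image.1 hI'
      have h1 : x ∈ insert y K := by rw [hKJ]; exact mem_insert_self x J
      rcases mem_insert.1 h1 with h2 | h2
      · exact h.1 h2
      · exact (hin K hK).1 h2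
    have hd2 : Disjoint ((ind (V \ {x, y}) (av E {x, y}) k).image (insert x) ∪
        (ind (V \ {x, y}) (av E {x, y}) k).image (insert y)) (ind (V \ {x, y}) (av E {x, y}) (k + 1)) := by
      rw [disjoint_left]
      intro I hI hI'
      obtain ⟨h1, h2⟩ := hin1 I hI'
      rcases mem_union.1 hI with h3 | h3
      · obtain ⟨J, _, rfl⟩ := mem_image.1 h3
        exact h1 (mem_insert_self x J)
      · obtain ⟨J, _, rfl⟩ := mem_image.1 h3
        exact h2 (mem_insert_self y J)
    have hsub : ((ind (V \ {x, y}) (av E {x, y}) k).image (insert x) ∪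
        (ind (V \ {x, y}) (av E {x, y}) k).image (insert y)) ∪ ind (V \ {x, y}) (av E {x, y}) (k + 1) ⊆ ind V E (k + 1) := by
      intro I hI
      rcases mem_union.1 hI with h3 | h3
      · rcases mem_union.1 h3 with h4 | h4
        · obtain ⟨J, hJ, rfl⟩ := mem_image.1 h4
          exact ZK_one hG h hJ
        · obtain ⟨J, hJ, rfl⟩ := mem_image.1 h4
          rw [pair_comm x y] at hJ
          exact ZK_one hG (ZK_symm h) hJ
      · exact ZK_two h h3
    have hfin := card_le_card hsub
    rw [card_union_of_disjoint hd2, card_union_of_disjoint hd1, hA, hB] at hfin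
    omega

end Pool.Agent.helper41.CL
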